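import Mathlib

set_option autoImplicit false

namespace Pool.Agent.Lib.MP_4d599e_an

section ip

variable {A : Type*} [NonUnitalCStarAlgebra A] [PartialOrder A] [StarOrderedRing A]

def ip {ι : Type} [Fintype ι] (x y : ι → A) : A := ∑ k, star (x k) * y k

lemma ip_self_nonneg {ι : Type} [Fintype ι] (x : ι → A) : 0 ≤ ip x x :=
  Finset.sum_nonneg fun k _ => star_mul_self_nonneg (x k)

lemma eq_zero_of_ip_self {ι : Type} [Fintype ι] {x : ι → A} (h : ip x x = 0) (k : ι) : x k = 0 := by
  have := (Finset.sum_eq_zero_iff_of_nonneg fun k _ => star_mul_self_nonneg (x k)).1 h k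
    (Finset.mem_univ k)
  exact (CStarRing.star_mul_self_eq_zero_iff _).1 this

omit [PartialOrder A] [StarOrderedRing A] in
lemma star_ip {ι : Type} [Fintype ι] (x y : ι → A) : star (ip x y) = ip y x := by
  simp [ip, star_sum]

omit [PartialOrder A] [StarOrderedRing A] in
lemma ip_sub_mul {ι : Type} [Fintype ι] (x y V W : ι → A) (s t : A) :
    ip (fun k => x k - V k * s) (fun k => y k - W k * t)
      = ip x y - ip x W * t - star s * ip V y + star s * ip V W * t := by
  simp only [ip, Finset.sum_mul, Finset.mul_sum, ← Finset.sum_sub_distrib, ← Finset.sum_add_distrib]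
  refine Finset.sum_congr rfl fun k _ => ?_
  simp only [star_sub, star_mul]
  noncomm_ring

omit [PartialOrder A] [StarOrderedRing A] in
lemma ip_mul_right {ι : Type} [Fintype ι] (x y : ι → A) (t : A) :
    ip x (fun k => y k * t) = ip x y * t := by
  simp only [ip, Finset.sum_mul, mul_assoc]

omit [PartialOrder A] [StarOrderedRing A] in
lemma ip_mul_left {ι : Type} [Fintype ι] (x y : ι → A) (t : A) :
    ip (fun k => x k * t) y = star t * ip x y := by
  simp only [ip, Finset.mul_sum, mul_assoc, star_mul]

omit [PartialOrder A] [StarOrderedRing A] in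
lemma ip_option {ι : Type} [Fintype ι] (x y : Option ι → A) :
    ip x y = star (x none) * y none + ip (fun k => x (some k)) (fun k => y (some k)) := by
  simp [ip, Fintype.sum_option]

lemma exists_sqrt {a : A} (ha : 0 ≤ a) : ∃ p : A, star p * p = a :=
  ⟨CFC.sqrt a, by rw [(IsSelfAdjoint.of_nonneg (CFC.sqrt_nonneg a)).star_eq,
    CFC.sqrt_mul_sqrt_self a]⟩

end ip

section core

variable {B : Type*} [CStarAlgebra B] [PartialOrder B] [StarOrderedRing B]

/-- a star ideal in which the Douglas factorization holds -/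
structure Douglas (I : B → Prop) : Prop where
  zero : I 0
  add : ∀ {x y}, I x → I y → I (x + y)
  mul_left : ∀ (a : B) {x}, I x → I (a * x)
  star : ∀ {x}, I x → I (star x)
  sqrt : ∀ {a}, I a → 0 ≤ a → ∃ p, I p ∧ Star.star p * p = a
  doug : ∀ {x w}, I x → I w → Star.star x * x ≤ Star.star w * w →
    ∃ z, Star.star z * z ≤ 1 ∧ x = z * w

variable {I : B → Prop}

lemma Douglas.mul_right (h : Douglas I) (a : B) {x : B} (hx : I x) : I (x * a) := by
  have := h.star (h.mul_left (Star.star a) (h.star hx))
  simpa using this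

lemma Douglas.sub (h : Douglas I) {x y : B} (hx : I x) (hy : I y) : I (x - y) := by
  have := h.add hx (h.mul_left (-1) hy)
  simpa [sub_eq_add_neg] using this

lemma Douglas.sum (h : Douglas I) {ι : Type} (s : Finset ι) (f : ι → B) (hf : ∀ i ∈ s, I (f i)) :
    I (∑ i ∈ s, f i) :=
  Finset.sum_induction f I (fun _ _ => h.add) h.zero hf

lemma Douglas.ip_right (h : Douglas I) {ι : Type} [Fintype ι] (x : ι → B) {y : ι → B}
    (hy : ∀ k, I (y k)) : I (ip x y) :=
  h.sum _ _ fun k _ => h.mul_left _ (hy k)

lemma Douglas.column (h : Douglas I) {ι : Type} (x : ι → B) (hx : ∀ i, I (x i)) (s : Finset ι) :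
    ∀ w, I w → ∑ i ∈ s, Star.star (x i) * x i ≤ Star.star w * w →
      ∃ Z : ι → B, ∑ i ∈ s, Star.star (Z i) * Z i ≤ 1 ∧ ∀ i ∈ s, x i = Z i * w := by
  classical
  induction s using Finset.induction_on with
  | empty => intro w _ _; exact ⟨0, by simp, by simp⟩
  | insert a s ha ih =>
    intro w hw hle
    rw [Finset.sum_insert ha] at hle
    have h0 : 0 ≤ ∑ i ∈ s, Star.star (x i) * x i :=
      Finset.sum_nonneg fun k _ => star_mul_self_nonneg (x k)
    obtain ⟨z, hz, hxz⟩ := h.doug (hx a) hw ((le_add_of_nonneg_right h0).trans hle)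
    obtain ⟨g, hg⟩ := exists_sqrt (sub_nonneg.2 hz)
    obtain ⟨Z, hZ, hxZ⟩ := ih (g * w) (h.mul_left g hw) (by
      have : Star.star (g * w) * (g * w) = Star.star w * w - Star.star (x a) * x a := by
        rw [hxz, star_mul, star_mul, mul_assoc, ← mul_assoc (Star.star g), hg]
        noncomm_ring
      rw [this]
      exact le_sub_iff_add_le'.2 hle)
    refine ⟨fun i => if i = a then z else Z i * g, ?_, ?_⟩
    · rw [Finset.sum_insert ha]
      have e : ∑ i ∈ s, Star.star (if i = a then z else Z i * g) * (if i = a then z else Z i * g)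
          = Star.star g * (∑ i ∈ s, Star.star (Z i) * Z i) * g := by
        rw [Finset.mul_sum, Finset.sum_mul]
        refine Finset.sum_congr rfl fun i hi => ?_
        have : i ≠ a := fun e => ha (e ▸ hi)
        simp [this, mul_assoc]
      simp only [if_true]
      rw [e]
      have := star_left_conjugate_le_conjugate hZ g
      rw [mul_one, hg] at this
      exact le_sub_iff_add_le'.1 this
    · intro i hi
      by_cases hia : i = a
      · simp [hia, ← hxz]
      · rw [hxZ i ((Finset.mem_insert.1 hi).resolve_left hia)]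
        simp [hia, mul_assoc]

lemma Douglas.polar (h : Douglas I) {ι : Type} [Fintype ι] {x : ι → B} (hx : ∀ i, I (x i))
    {p : B} (hp : I p) (hpx : Star.star p * p = ip x x) :
    ∃ (V : ι → B) (g : B), ip V V + Star.star g * g = 1 ∧ (∀ i, x i = V i * p) ∧ g * p = 0 ∧
      ip V x = p := by
  obtain ⟨V, hV, hxV⟩ := h.column x hx Finset.univ p hp hpx.ge
  obtain ⟨g, hg⟩ := exists_sqrt (sub_nonneg.2 hV)
  have h1 : ip V V + Star.star g * g = 1 := by rw [hg]; simp [ip]
  have h2 : x = fun i => V i * p := funext fun i => hxV i (Finset.mem_univ i)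
  have h3 : g * p = 0 := by
    rw [← CStarRing.star_mul_self_eq_zero_iff]
    have e1 : ip x x = Star.star p * ip V V * p := by
      rw [h2, ip_mul_left, ip_mul_right, mul_assoc]
    have e2 : Star.star (g * p) * (g * p)
        = Star.star p * (ip V V + Star.star g * g) * p - Star.star p * ip V V * p := by
      rw [star_mul]; noncomm_ring
    rw [e2, h1, ← e1, mul_one, hpx, sub_self]
  refine ⟨V, g, h1, fun i => hxV i (Finset.mem_univ i), h3, ?_⟩
  have e3 : ip V x = (ip V V + Star.star g * g) * p := by
    rw [add_mul, mul_assoc, h3, mul_zero, add_zero]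
    conv_lhs => rw [h2]
    rw [ip_mul_right]
  rw [e3, h1, one_mul]

lemma Douglas.separate (h : Douglas I) {σ : Type} (S : Finset σ) {p : B} (hp : I p) {δ : σ → B}
    (hδ : ∀ j, I (δ j)) (hpδ : ∀ j ∈ S, Star.star p * δ j = 0) :
    ∃ v g : B, Star.star v * v + Star.star g * g = 1 ∧ v * p = p ∧ g * p = 0 ∧
      ∀ j ∈ S, v * δ j = 0 := by
  set P := p * Star.star p with hP
  set y := ∑ j ∈ S, δ j * Star.star (δ j) with hy
  have hPs : Star.star P = P := by simp [hP]
  have hys : Star.star y = y := by simp [hy, star_sum]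
  have hPy : P * y = 0 := by
    rw [hy, Finset.mul_sum]
    refine Finset.sum_eq_zero fun j hj => ?_
    rw [hP, mul_assoc, ← mul_assoc (Star.star p), hpδ j hj]; simp
  have hyP : y * P = 0 := by
    have := congrArg Star.star hPy
    simpa [star_mul, hPs, hys] using this
  have hPI : I P := h.mul_right _ hp
  have hyI : I y := h.sum _ _ fun j _ => h.mul_right _ (hδ j)
  obtain ⟨v, hv, hPv⟩ := h.doug hPI (h.add hPI hyI) (by
    have : Star.star (P + y) * (P + y) = Star.star P * P + Star.star y * y := by
      rw [star_add, hPs, hys, add_mul, mul_add, mul_add, hPy, hyP]; simp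
    rw [this]
    exact le_add_of_nonneg_right (star_mul_self_nonneg y))
  have h1 : (1 - v) * P * P = 0 := by
    have : P * P = v * (P + y) * P := by rw [← hPv]
    rw [mul_assoc v, add_mul, hyP, add_zero] at this
    rw [mul_assoc, sub_mul, one_mul, ← this, sub_self]
  have h2 : (1 - v) * P = 0 := by
    rw [← CStarRing.mul_star_self_eq_zero_iff, star_mul, hPs, ← mul_assoc, h1, zero_mul]
  have h3 : (1 - v) * p = 0 := by
    rw [← CStarRing.mul_star_self_eq_zero_iff, star_mul, ← mul_assoc, mul_assoc _ p, ← hP, h2,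
      zero_mul]
  have h4 : v * p = p := by
    rw [sub_mul, one_mul, sub_eq_zero] at h3; exact h3.symm
  have h5 : v * y = 0 := by
    rw [sub_mul, one_mul, sub_eq_zero] at h2
    rw [mul_add, ← h2] at hPv
    simpa using hPv
  obtain ⟨g, hg⟩ := exists_sqrt (sub_nonneg.2 hv)
  refine ⟨v, g, by rw [hg]; simp, h4, ?_, fun j hj => ?_⟩
  · rw [← CStarRing.star_mul_self_eq_zero_iff]
    have e2 : Star.star (g * p) * (g * p)
        = Star.star p * p - Star.star (v * p) * (v * p) := by
      rw [star_mul, star_mul, mul_assoc, ← mul_assoc (Star.star g), hg]; noncomm_ring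
    rw [e2, h4, sub_self]
  · have h6 : ∑ j ∈ S, (v * δ j) * Star.star (v * δ j) = 0 := by
      have : ∑ j ∈ S, (v * δ j) * Star.star (v * δ j) = v * y * Star.star v := by
        rw [hy, Finset.mul_sum, Finset.sum_mul]
        simp [mul_assoc]
      rw [this, h5, zero_mul]
    have := (Finset.sum_eq_zero_iff_of_nonneg fun k _ => mul_star_self_nonneg (v * δ k)).1 h6 j hj
    exact (CStarRing.mul_star_self_eq_zero_iff _).1 this

def IsoMap (I : B → Prop) {ι ν : Type} [Fintype ι] [Fintype ν] (T : (ι → B) → (ν → B)) : Prop :=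
  (∀ x y, ip (T x) (T y) = ip x y) ∧ ∀ x, (∀ k, I (x k)) → ∀ k, I (T x k)

/-- the tail of the splitting map -/
noncomputable def tail {ι : Type} [Fintype ι] (V : ι → B) (g g' : B) (x : ι → B) : Option (Option ι) → B
  | none => g' * ip V x
  | some none => g * ip V x
  | some (some k) => x k - V k * ip V x

omit [PartialOrder B] [StarOrderedRing B] in
lemma ip_tail {ι : Type} [Fintype ι] {V : ι → B} {g v g' : B} (h1 : ip V V + star g * g = 1)
    (h2 : star v * v + star g' * g' = 1) (x y : ι → B) :
    ip (tail V g g' x) (tail V g g' y) = ip x y - star (v * ip V x) * (v * ip V y) := by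
  rw [ip_option, ip_option]
  simp only [tail]
  rw [ip_sub_mul, ← star_ip V x]
  have e1 : ip V V = 1 - star g * g := eq_sub_of_add_eq h1
  have e2 : star g' * g' = 1 - star v * v := eq_sub_of_add_eq' h2
  simp only [star_mul]
  rw [e1, mul_assoc (star (ip V x)) (star g'), ← mul_assoc (star g'), e2]
  noncomm_ring

theorem Douglas.amalgam (h : Douglas I) {σ : Type} (S : Finset σ) :
    ∀ (ι κ : Type) [Fintype ι] [Fintype κ] (w : σ → ι → B) (w' : σ → κ → B),
      (∀ j k, I (w j k)) → (∀ j k, I (w' j k)) →
      (∀ i ∈ S, ∀ j ∈ S, ip (w i) (w j) = ip (w' i) (w' j)) →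
      ∃ (ν : Type) (_ : Fintype ν) (J : (ι → B) → (ν → B)) (J' : (κ → B) → (ν → B)),
        IsoMap I J ∧ IsoMap I J' ∧ ∀ j ∈ S, J (w j) = J' (w' j) := by
  classical
  induction S using Finset.induction_on with
  | empty =>
    intro ι κ _ _ w w' _ _ _
    refine ⟨ι ⊕ κ, inferInstance, fun x => Sum.elim x 0, fun x => Sum.elim 0 x, ⟨?_, ?_⟩, ⟨?_, ?_⟩,
      by simp⟩
    · intro x y; simp [ip]
    · rintro x hx (k | k)
      · exact hx k
      · exact h.zero
    · intro x y; simp [ip]
    · rintro x hx (k | k)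
      · exact h.zero
      · exact hx k
  | insert a S ha ih =>
    intro ι κ _ _ w w' hw hw' hG
    have haS : a ∈ insert a S := Finset.mem_insert_self a S
    obtain ⟨p, hp, hpp⟩ := h.sqrt (h.ip_right (w a) (hw a)) (ip_self_nonneg (w a))
    obtain ⟨V, g, hV, hwV, hgp, hVp⟩ := h.polar (hw a) hp hpp
    obtain ⟨V', g', hV', hwV', hgp', hVp'⟩ := h.polar (hw' a) hp (hpp.trans (hG a haS a haS))
    obtain ⟨v, f, hvf, hvp, hfp, hvδ⟩ := h.separate S hp
      (δ := fun j => ip V (w j) - ip V' (w' j))
      (fun j => h.sub (h.ip_right _ (hw j)) (h.ip_right _ (hw' j))) (by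
        intro j hj
        rw [mul_sub, ← ip_mul_left, ← ip_mul_left, ← funext hwV, ← funext hwV',
          hG a haS j (Finset.mem_insert_of_mem hj), sub_self])
    have hv : ∀ j ∈ insert a S, v * ip V (w j) = v * ip V' (w' j) := by
      intro j hj
      rcases Finset.mem_insert.1 hj with rfl | hj
      · rw [hVp, hVp']
      · have := hvδ j hj
        rwa [mul_sub, sub_eq_zero] at this
    have hI : ∀ {ι : Type} [Fintype ι] (V : ι → B) (g : B) (x : ι → B), (∀ k, I (x k)) →
        ∀ k, I (tail V g f x k) := by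
      rintro ι _ V g x hx (_ | _ | k)
      · exact h.mul_left _ (h.ip_right _ hx)
      · exact h.mul_left _ (h.ip_right _ hx)
      · exact h.sub (hx k) (h.mul_left _ (h.ip_right _ hx))
    obtain ⟨ν, _, K, K', hK, hK', hKK⟩ := ih (Option (Option ι)) (Option (Option κ))
      (fun j => tail V g f (w j)) (fun j => tail V' g' f (w' j))
      (fun j => hI V g _ (hw j)) (fun j => hI V' g' _ (hw' j)) (by
        intro i hi j hj
        have hi' := Finset.mem_insert_of_mem (b := a) hi
        have hj' := Finset.mem_insert_of_mem (b := a) hj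
        rw [ip_tail hV hvf, ip_tail hV' hvf, hG i hi' j hj', hv i hi', hv j hj'])
    refine ⟨Option ν, inferInstance,
      fun x k => k.elim (v * ip V x) (K (tail V g f x)),
      fun x k => k.elim (v * ip V' x) (K' (tail V' g' f x)), ⟨?_, ?_⟩, ⟨?_, ?_⟩, ?_⟩
    · intro x y
      rw [ip_option]
      simp only [Option.elim]
      rw [hK.1, ip_tail hV hvf]; abel
    · rintro x hx (_ | k)
      · exact h.mul_left _ (h.ip_right _ hx)
      · exact hK.2 _ (hI V g x hx) k
    · intro x y
      rw [ip_option]
      simp only [Option.elim]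
      rw [hK'.1, ip_tail hV' hvf]; abel
    · rintro x hx (_ | k)
      · exact h.mul_left _ (h.ip_right _ hx)
      · exact hK'.2 _ (hI V' g' x hx) k
    · intro j hj
      funext k
      rcases k with _ | k
      · exact hv j hj
      simp only [Option.elim]
      rcases Finset.mem_insert.1 hj with rfl | hj
      · have e1 : K (tail V g f (w j)) k = 0 := by
          apply eq_zero_of_ip_self
          rw [hK.1, ip_tail hV hvf, hVp, hvp, hpp, sub_self]
        have e2 : K' (tail V' g' f (w' j)) k = 0 := by
          apply eq_zero_of_ip_self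
          rw [hK'.1, ip_tail hV' hvf, hVp', hvp, hpp, hG j haS j haS, sub_self]
        rw [e1, e2]
      · rw [hKK j hj]

end core

end Pool.Agent.Lib.MP_4d599e_an
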