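import Mathlib

set_option autoImplicit false

namespace Pool.Agent.Lib.MP_4d599e_an

variable (A : Type) [NonUnitalCStarAlgebra A] [PartialOrder A] [StarOrderedRing A]

/-- the principal submatrix on every clique is positive -/
def CliquePositive {n : ℕ} (G : SimpleGraph (Fin n)) (M : Matrix (Fin n) (Fin n) A) : Prop :=
  ∀ K : Finset (Fin n), G.IsClique K →
    0 ≤ CStarMatrix.ofMatrix (M.submatrix (fun i : K => (i : Fin n)) (fun i : K => (i : Fin n)))

/-- the graph belongs to the class `G(A)` -/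
def Completable {n : ℕ} (G : SimpleGraph (Fin n)) : Prop :=
  ∀ M : Matrix (Fin n) (Fin n) A, CliquePositive A G M →
    ∃ Y : Matrix (Fin n) (Fin n) A, 0 ≤ CStarMatrix.ofMatrix Y ∧
      ∀ i j, (i = j ∨ G.Adj i j) → Y i j = M i j

/-- every cycle `c 0, ..., c (p-1)` on `p ≥ 4` distinct vertices has a chord -/
def IsChordal {n : ℕ} (G : SimpleGraph (Fin n)) : Prop :=
  ∀ (p : ℕ) (c : ℕ → Fin n), 4 ≤ p → Set.InjOn c (Set.Iio p) →
    (∀ i, i + 1 < p → G.Adj (c i) (c (i + 1))) → G.Adj (c (p - 1)) (c 0) →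
    ∃ i j, i + 1 < j ∧ j < p ∧ ¬ (i = 0 ∧ j = p - 1) ∧ G.Adj (c i) (c j)

/-- every connected component is complete -/
def IsUnionOfComplete {n : ℕ} (G : SimpleGraph (Fin n)) : Prop :=
  ∀ a b, G.Reachable a b → a ≠ b → G.Adj a b

end Pool.Agent.Lib.MP_4d599e_an
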