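import Pool.Agent.Lib.MP_4d599e_an.Defs

set_option autoImplicit false

namespace Pool.Agent.Lib.MP_4d599e_an

lemma path_of_rtg {V : Type} {R : V → V → Prop} {x y : V} (h : Relation.ReflTransGen R x y) :
    ∃ (k : ℕ) (q : ℕ → V), q 0 = x ∧ q k = y ∧ ∀ i < k, R (q i) (q (i + 1)) := by
  induction h with
  | refl => exact ⟨0, fun _ => x, rfl, rfl, by simp⟩
  | @tail b c _ hbc ih =>
    obtain ⟨k, q, h0, hk, hq⟩ := ih
    refine ⟨k + 1, fun l => if l ≤ k then q l else c, by simp [h0], by simp, fun i hi => ?_⟩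
    by_cases hik : i < k
    · simp only [hik.le, if_true, Nat.succ_le_of_lt hik]
      exact hq i hik
    · have : i = k := by omega
      subst this
      simp [hk, hbc]

lemma adj_of_chordal {n : ℕ} {G : SimpleGraph (Fin n)} (hG : IsChordal G) {D : Set (Fin n)}
    {v s t : Fin n} (hvD : ∀ d ∈ D, d ≠ v ∧ ¬ G.Adj v d) (hvs : G.Adj v s) (hvt : G.Adj v t)
    (hst : s ≠ t) (hpath : Relation.ReflTransGen
      (fun a b => (a ∈ D ∨ a = s ∨ a = t) ∧ (b ∈ D ∨ b = s ∨ b = t) ∧ G.Adj a b) s t) :
    G.Adj s t := by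
  classical
  by_contra hn
  let P : ℕ → Prop := fun k => ∃ q : ℕ → Fin n, q 0 = s ∧ q k = t ∧
    (∀ i < k, G.Adj (q i) (q (i + 1))) ∧ ∀ i ≤ k, q i ∈ D ∨ q i = s ∨ q i = t
  have hex : ∃ k, P k := by
    obtain ⟨k, q, h0, hk, hq⟩ := path_of_rtg hpath
    refine ⟨k, q, h0, hk, fun i hi => (hq i hi).2.2, fun i hi => ?_⟩
    rcases hi.eq_or_lt with rfl | hi
    · exact Or.inr (Or.inr hk)
    · exact (hq i hi).1
  obtain ⟨q, h0, hk, hq, hD⟩ := Nat.find_spec hex
  set k := Nat.find hex with hkdef
  have short : ∀ i d, 0 < d → i + d ≤ k → (i + d = k → q i = t) →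
      (i + d < k → G.Adj (q i) (q (i + d + 1))) → False := by
    intro i d hd hid h1 h2
    apply Nat.find_min hex (m := k - d) (by omega)
    refine ⟨fun l => if l ≤ i then q l else q (l + d), by simp [h0], ?_, fun l hl => ?_,
      fun l hl => ?_⟩
    · by_cases h : k - d ≤ i
      · have : k - d = i := by omega
        simp only [this, le_refl, if_true]
        exact h1 (by omega)
      · simp only [h, if_false]
        rw [Nat.sub_add_cancel (by omega), hk]
    · rcases lt_trichotomy l i with h | h | h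
      · simp only [h.le, if_true, Nat.succ_le_of_lt h]
        exact hq l (by omega)
      · subst h
        simp only [le_refl, if_true, Nat.not_succ_le_self, if_false]
        have := h2 (by omega)
        rwa [show l + d + 1 = l + 1 + d by omega] at this
      · simp only [not_le.2 h, if_false, show ¬ (l + 1 ≤ i) by omega]
        have := hq (l + d) (by omega)
        rwa [show l + d + 1 = l + 1 + d by omega] at this
    · by_cases h : l ≤ i
      · simp only [h, if_true]; exact hD l (by omega)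
      · simp only [h, if_false]; exact hD _ (by omega)
  have hinj : ∀ i j, i < j → j ≤ k → q i ≠ q j := by
    intro i j hij hj e
    refine short i (j - i) (by omega) (by omega) (fun h => ?_) (fun h => ?_)
    · rw [e, show j = k by omega, hk]
    · rw [e, show i + (j - i) + 1 = j + 1 by omega]
      exact hq j (by omega)
  have hchord : ∀ i j, i + 1 < j → j ≤ k → ¬ G.Adj (q i) (q j) := by
    intro i j hij hj e
    refine short i (j - i - 1) (by omega) (by omega) (fun h => by omega) (fun h => ?_)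
    rwa [show i + (j - i - 1) + 1 = j by omega]
  have hk0 : k ≠ 0 := by
    intro e; rw [e, h0] at hk; exact hst hk
  have hk1 : k ≠ 1 := by
    intro e
    have := hq 0 (by omega)
    rw [h0, zero_add, ← e, hk] at this
    exact hn this
  have hv : ∀ i ≤ k, q i ≠ v := by
    intro i hi
    rcases hD i hi with h | h | h
    · exact (hvD _ h).1
    · rw [h]; exact hvs.ne'
    · rw [h]; exact hvt.ne'
  obtain ⟨i, j, hij, hj, hne, hadj⟩ := hG (k + 2) (fun l => if l ≤ k then q l else v) (by omega)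
    (by
      intro i hi j hj e
      simp only [Set.mem_Iio] at hi hj
      by_cases h1 : i ≤ k <;> by_cases h2 : j ≤ k <;> simp only [h1, h2, if_true, if_false] at e
      · rcases lt_trichotomy i j with h | h | h
        · exact absurd e (hinj i j h h2)
        · exact h
        · exact absurd e.symm (hinj j i h h1)
      · exact absurd e (hv i h1)
      · exact absurd e.symm (hv j h2)
      · omega)
    (by
      intro i hi
      by_cases h : i < k
      · simp only [h.le, if_true, Nat.succ_le_of_lt h]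
        exact hq i h
      · have : i = k := by omega
        subst this
        simp only [le_refl, if_true, Nat.not_succ_le_self, if_false, hk]
        exact hvt.symm)
    (by
      simp only [show ¬ (k + 2 - 1 ≤ k) by omega, if_false, Nat.zero_le, if_true, h0]
      exact hvs)
  have hi : i ≤ k := by omega
  by_cases h : j ≤ k
  · simp only [hi, h, if_true] at hadj
    exact hchord i j hij h hadj
  · simp only [hi, h, if_true, if_false] at hadj
    rcases hD i hi with e | e | e
    · exact (hvD _ e).2 hadj.symm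
    · exact hinj 0 i (by omega) hi (h0.trans e.symm)
    · exact hinj i k (by omega) le_rfl (e.trans hk.symm)

lemma decompose {n : ℕ} {G : SimpleGraph (Fin n)} (hG : IsChordal G) (W : Finset (Fin n))
    (hW : ¬ G.IsClique W) :
    ∃ W1 W2 : Finset (Fin n), W1 ⊂ W ∧ W2 ⊂ W ∧ G.IsClique ((W1 ∩ W2 : Finset (Fin n)) : Set _) ∧
      ∀ i ∈ W, ∀ j ∈ W, (i = j ∨ G.Adj i j) → (i ∈ W1 ∧ j ∈ W1) ∨ (i ∈ W2 ∧ j ∈ W2) := by
  classical
  obtain ⟨v, hv, u, hu, hvu, hn⟩ : ∃ v ∈ W, ∃ u ∈ W, v ≠ u ∧ ¬ G.Adj v u := by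
    by_contra hcon
    push Not at hcon
    exact hW fun a ha b hb hab => hcon a ha b hb hab
  let T : Fin n → Prop := fun x => x ∈ W ∧ x ≠ v ∧ ¬ G.Adj v x
  let D : Fin n → Prop := fun x => Relation.ReflTransGen (fun a b => T b ∧ G.Adj a b) u x
  have hDT : ∀ x, D x → T x := by
    intro x hx
    induction hx with
    | refl => exact ⟨hu, hvu.symm, hn⟩
    | tail _ h _ => exact h.1
  have hconn : ∀ x, D x → Relation.ReflTransGen (fun a b => D a ∧ D b ∧ G.Adj a b) u x := by
    intro x hx
    induction hx with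
    | refl => exact .refl
    | tail h1 h ih => exact ih.tail ⟨h1, h1.tail h, h.2⟩
  have hsymm : ∀ x y, Relation.ReflTransGen (fun a b => D a ∧ D b ∧ G.Adj a b) x y →
      Relation.ReflTransGen (fun a b => D a ∧ D b ∧ G.Adj a b) y x := by
    intro x y h
    induction h with
    | refl => exact .refl
    | tail _ h ih => exact .head ⟨h.2.1, h.1, h.2.2.symm⟩ ih
  have hS : ∀ s ∈ W, ¬ D s → ∀ d, D d → G.Adj s d → G.Adj v s := by
    intro s hs hsD d hd hsd
    by_contra h
    by_cases e : s = v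
    · exact (hDT d hd).2.2 (e ▸ hsd)
    · exact hsD (hd.tail ⟨⟨hs, e, h⟩, hsd.symm⟩)
  refine ⟨W.filter fun x => D x ∨ ∃ d, D d ∧ G.Adj x d, W.filter fun x => ¬ D x, ?_, ?_, ?_, ?_⟩
  · refine Finset.filter_ssubset.2 ⟨v, hv, ?_⟩
    rintro (h | ⟨d, hd, h⟩)
    · exact (hDT v h).2.1 rfl
    · exact (hDT d hd).2.2 h
  · exact Finset.filter_ssubset.2 ⟨u, hu, fun h => h .refl⟩
  · intro s hs t ht hst
    simp only [Finset.coe_inter, Finset.coe_filter, Set.mem_inter_iff, Set.mem_ofPred_eq] at hs ht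
    obtain ⟨⟨hsW, hs1⟩, -, hs2⟩ := hs
    obtain ⟨⟨htW, ht1⟩, -, ht2⟩ := ht
    obtain ⟨ds, hds, hs3⟩ := hs1.resolve_left hs2
    obtain ⟨dt, hdt, ht3⟩ := ht1.resolve_left ht2
    refine adj_of_chordal hG (D := {x | D x}) (v := v) (fun d hd => (hDT d hd).2)
      (hS s hsW hs2 ds hds hs3) (hS t htW ht2 dt hdt ht3) hst ?_
    refine .head (b := ds) ⟨Or.inr (Or.inl rfl), Or.inl hds, hs3⟩ ?_
    refine .tail (b := dt) ?_ ⟨Or.inl hdt, Or.inr (Or.inr rfl), ht3.symm⟩
    exact Relation.ReflTransGen.mono (fun a b h => ⟨Or.inl h.1, Or.inl h.2.1, h.2.2⟩) _ _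
      ((hsymm _ _ (hconn ds hds)).trans (hconn dt hdt))
  · intro i hi j hj hij
    simp only [Finset.mem_filter, hi, hj, true_and]
    by_cases h1 : D i <;> by_cases h2 : D j
    · exact Or.inl ⟨Or.inl h1, Or.inl h2⟩
    · rcases hij with rfl | hij
      · exact absurd h1 h2
      · exact Or.inl ⟨Or.inl h1, Or.inr ⟨i, h1, hij.symm⟩⟩
    · rcases hij with rfl | hij
      · exact absurd h2 h1
      · exact Or.inl ⟨Or.inr ⟨j, h2, hij⟩, Or.inl h2⟩
    · exact Or.inr ⟨h1, h2⟩

lemma exists_path3 {n : ℕ} {G : SimpleGraph (Fin n)} (h : ¬ IsUnionOfComplete G) :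
    ∃ a b c, G.Adj a b ∧ G.Adj b c ∧ a ≠ c ∧ ¬ G.Adj a c := by
  by_contra hcon
  push Not at hcon
  apply h
  rintro a b ⟨w⟩
  induction w with
  | nil => intro h; exact absurd rfl h
  | @cons x y z hxy _ ih =>
    intro hxz
    by_cases e : y = z
    · exact e ▸ hxy
    · exact hcon x y z hxy (ih e) hxz

end Pool.Agent.Lib.MP_4d599e_an
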