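import Pool.Agent.Lib.MP_4d599e_an.Core
import Pool.Agent.Lib.MP_4d599e_an.Graph

set_option autoImplicit false

open scoped CStarAlgebra

namespace Pool.Agent.Lib.MP_4d599e_an

variable {A : Type} [NonUnitalCStarAlgebra A] [PartialOrder A] [StarOrderedRing A]

lemma gram_nonneg {m ν : Type} [Fintype m] [Fintype ν] (ξ : m → ν → A) (Y : Matrix m m A)
    (hY : ∀ i j, Y i j = ip (ξ i) (ξ j)) : 0 ≤ CStarMatrix.ofMatrix Y := by
  classical
  rcases isEmpty_or_nonempty m with hm | ⟨⟨r0⟩⟩
  · exact le_of_eq (by ext i; exact hm.elim i)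
  let X : ν → CStarMatrix m m A := fun k =>
    CStarMatrix.ofMatrix (Matrix.of fun r j => if r = r0 then ξ j k else 0)
  have : CStarMatrix.ofMatrix Y = ∑ k, star (X k) * X k := by
    ext i j
    have e : (∑ k, star (X k) * X k) i j = ∑ k, (star (X k) * X k) i j :=
      Matrix.sum_apply i j _ _
    rw [e]
    change Y i j = _
    rw [hY, ip]
    refine Finset.sum_congr rfl fun k _ => ?_
    rw [CStarMatrix.mul_apply, Finset.sum_eq_single r0]
    · simp [X, CStarMatrix.star_apply]
    · intro r _ hr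
      simp [X, hr]
    · simp
  rw [this]
  exact Finset.sum_nonneg fun k _ => star_mul_self_nonneg (X k)

lemma nonneg_gram {m : Type} [Fintype m] (Y : Matrix m m A) (hY : 0 ≤ CStarMatrix.ofMatrix Y) :
    ∃ ξ : m → m → A, ∀ i j, Y i j = ip (ξ i) (ξ j) := by
  obtain ⟨X, hX⟩ := exists_sqrt hY
  refine ⟨fun i k => X k i, fun i j => ?_⟩
  have : (star X * X) i j = Y i j := by rw [hX]; rfl
  rw [← this, CStarMatrix.mul_apply, ip]
  simp [CStarMatrix.star_apply]

lemma chordal_of_completable [Nontrivial A] {n : ℕ} {G : SimpleGraph (Fin n)}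
    (h : Completable A G) : IsChordal G := by
  classical
  intro p c hp hinj hadj hlast
  by_contra hno
  push Not at hno
  obtain ⟨a, ha⟩ := exists_ne (0 : A)
  let on : Fin n → Prop := fun x => ∃ i < p, c i = x
  let M : Matrix (Fin n) (Fin n) A := fun x y =>
    if on x ∧ on y then
      (if (x = c 0 ∧ y = c (p - 1)) ∨ (x = c (p - 1) ∧ y = c 0) then -(star a * a) else star a * a)
    else 0
  have hc : ∀ i < p, ∀ j < p, c i = c j → i = j := fun i hi j hj e => hinj hi hj e
  obtain ⟨Y, hY, hYM⟩ := h M (by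
    intro K hK
    by_cases hb : c 0 ∈ K ∧ c (p - 1) ∈ K
    · refine gram_nonneg (ν := Unit)
        (fun (x : K) _ => if (x : Fin n) = c 0 then a else if (x : Fin n) = c (p - 1) then -a else 0) _ ?_
      have h0 : c 0 ≠ c (p - 1) := fun e => by have := hc 0 (by omega) (p - 1) (by omega) e; omega
      have hon : ∀ x ∈ K, on x → x = c 0 ∨ x = c (p - 1) := by
        rintro x hx ⟨i, hi, rfl⟩
        by_contra hcon
        push Not at hcon
        have i0 : i ≠ 0 := fun e => hcon.1 (by rw [e])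
        have i1 : i ≠ p - 1 := fun e => hcon.2 (by rw [e])
        by_cases h1 : i = 1
        · exact hno i (p - 1) (by omega) (by omega) (by omega) (hK hx hb.2 hcon.2)
        · exact hno 0 i (by omega) hi (by omega) (hK hb.1 hx hcon.1.symm)
      have on0 : on (c 0) := ⟨0, by omega, rfl⟩
      have on1 : on (c (p - 1)) := ⟨p - 1, by omega, rfl⟩
      rintro ⟨x, hx⟩ ⟨y, hy⟩
      simp only [Matrix.submatrix_apply, M, ip, Finset.univ_unique, Finset.sum_singleton]
      by_cases ox : on x
      · by_cases oy : on y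
        · rcases hon x hx ox with rfl | rfl <;> rcases hon y hy oy with rfl | rfl <;>
            simp [on0, on1, h0, h0.symm]
        · have y0 : y ≠ c 0 := fun e => oy (e ▸ on0)
          have y1 : y ≠ c (p - 1) := fun e => oy (e ▸ on1)
          simp [oy, y0, y1]
      · have x0 : x ≠ c 0 := fun e => ox (e ▸ on0)
        have x1 : x ≠ c (p - 1) := fun e => ox (e ▸ on1)
        simp [ox, x0, x1]
    · refine gram_nonneg (ν := Unit) (fun (x : K) _ => if on (x : Fin n) then a else 0) _ ?_
      rintro ⟨x, hx⟩ ⟨y, hy⟩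
      have : ¬ ((x = c 0 ∧ y = c (p - 1)) ∨ (x = c (p - 1) ∧ y = c 0)) := by
        rintro (⟨rfl, rfl⟩ | ⟨rfl, rfl⟩)
        · exact hb ⟨hx, hy⟩
        · exact hb ⟨hy, hx⟩
      simp only [Matrix.submatrix_apply, M, ip, Finset.univ_unique, Finset.sum_singleton, this,
        if_false]
      by_cases ox : on x <;> by_cases oy : on y <;> simp [ox, oy])
  obtain ⟨ξ, hξ⟩ := nonneg_gram Y hY
  have hM : ∀ i < p, ∀ j < p, (i = j ∨ i + 1 = j ∨ j + 1 = i) →
      ip (ξ (c i)) (ξ (c j)) = star a * a := by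
    intro i hi j hj hij
    have h1 : c i = c j ∨ G.Adj (c i) (c j) := by
      rcases hij with rfl | rfl | rfl
      · exact Or.inl rfl
      · exact Or.inr (hadj i hj)
      · exact Or.inr (hadj j hi).symm
    have h2 : ¬ ((c i = c 0 ∧ c j = c (p - 1)) ∨ (c i = c (p - 1) ∧ c j = c 0)) := by
      rintro (⟨e1, e2⟩ | ⟨e1, e2⟩)
      · have := hc _ hi _ (by omega) e1
        have := hc _ hj _ (by omega) e2
        omega
      · have := hc _ hi _ (by omega) e1
        have := hc _ hj _ (by omega) e2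
        omega
    rw [← hξ, hYM _ _ h1]
    simp only [M, h2, if_false]
    rw [if_pos ⟨⟨i, hi, rfl⟩, ⟨j, hj, rfl⟩⟩]
  have hstep : ∀ i, i + 1 < p → ξ (c (i + 1)) = ξ (c i) := by
    intro i hi
    funext k
    rw [← sub_eq_zero]
    apply eq_zero_of_ip_self (x := fun k => ξ (c (i + 1)) k - ξ (c i) k)
    have : ip (fun k => ξ (c (i + 1)) k - ξ (c i) k) (fun k => ξ (c (i + 1)) k - ξ (c i) k)
        = ip (ξ (c (i + 1))) (ξ (c (i + 1))) - ip (ξ (c (i + 1))) (ξ (c i))
          - ip (ξ (c i)) (ξ (c (i + 1))) + ip (ξ (c i)) (ξ (c i)) := by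
      simp only [ip, ← Finset.sum_sub_distrib, ← Finset.sum_add_distrib]
      refine Finset.sum_congr rfl fun k _ => ?_
      simp only [star_sub]
      noncomm_ring
    rw [this, hM _ hi _ hi (by omega), hM _ hi i (by omega) (by omega),
      hM i (by omega) _ hi (by omega), hM i (by omega) i (by omega) (by omega)]
    abel
  have hall : ∀ i < p, ξ (c i) = ξ (c 0) := by
    intro i hi
    induction i with
    | zero => rfl
    | succ i ih => rw [hstep i hi, ih (by omega)]
  have h1 := hYM _ _ (Or.inr hlast)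
  rw [hξ, hall (p - 1) (by omega), hM 0 (by omega) 0 (by omega) (by omega)] at h1
  simp only [M, and_self, or_true, if_true] at h1
  rw [if_pos ⟨⟨p - 1, by omega, rfl⟩, ⟨0, by omega, rfl⟩⟩] at h1
  have h2 : star a * a = 0 :=
    le_antisymm (h1.le.trans (neg_nonpos.2 (star_mul_self_nonneg a))) (star_mul_self_nonneg a)
  exact ha ((CStarRing.star_mul_self_eq_zero_iff a).1 h2)

lemma path3_completion {n : ℕ} {G : SimpleGraph (Fin n)} (h : Completable A G)
    (hG : ¬ IsUnionOfComplete G) {ι κ : Type} [Fintype ι] [Fintype κ] (α ξ : ι → A)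
    (ξ' β : κ → A) (hξ : ip ξ ξ = ip ξ' ξ') :
    ∃ (ν : Type) (_ : Fintype ν) (a b c : ν → A), ip a a = ip α α ∧ ip a b = ip α ξ ∧
      ip b b = ip ξ ξ ∧ ip b c = ip ξ' β ∧ ip c c = ip β β := by
  classical
  obtain ⟨a, b, c, hab, hbc, hac, hn⟩ := exists_path3 hG
  let u : Fin n → ι → A := fun i => if i = a then α else if i = b then ξ else 0
  let u' : Fin n → κ → A := fun i => if i = c then β else if i = b then ξ' else 0
  let M : Matrix (Fin n) (Fin n) A := fun i j =>
    if i = c ∨ j = c then ip (u' i) (u' j) else ip (u i) (u j)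
  have h0 : ∀ {ι : Type} [Fintype ι] (x : ι → A), ip x 0 = 0 := fun x => by simp [ip]
  have h0' : ∀ {ι : Type} [Fintype ι] (x : ι → A), ip 0 x = 0 := fun x => by simp [ip]
  obtain ⟨Y, hY, hYM⟩ := h M (by
    intro K hK
    by_cases hc : c ∈ K
    · have ha : a ∉ K := fun ha => hn (hK ha hc hac)
      refine gram_nonneg (fun x : K => u' x) _ ?_
      rintro ⟨x, hx⟩ ⟨y, hy⟩
      have xa : x ≠ a := fun e => ha (e ▸ hx)
      have ya : y ≠ a := fun e => ha (e ▸ hy)
      simp only [Matrix.submatrix_apply, M]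
      split_ifs with h1
      · rfl
      · push Not at h1
        simp only [u, u', xa, ya, h1.1, h1.2, if_false]
        by_cases xb : x = b <;> by_cases yb : y = b <;> simp [xb, yb, hξ, h0, h0']
    · refine gram_nonneg (fun x : K => u x) _ ?_
      rintro ⟨x, hx⟩ ⟨y, hy⟩
      have xc : x ≠ c := fun e => hc (e ▸ hx)
      have yc : y ≠ c := fun e => hc (e ▸ hy)
      simp [M, xc, yc])
  obtain ⟨η, hη⟩ := nonneg_gram Y hY
  have e1 := hab.ne
  have e2 := hbc.ne
  refine ⟨Fin n, inferInstance, η a, η b, η c, ?_, ?_, ?_, ?_, ?_⟩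
  · rw [← hη, hYM _ _ (Or.inl rfl)]; simp [M, u, hac]
  · rw [← hη, hYM _ _ (Or.inr hab)]; simp [M, u, hac, e2, e1.symm]
  · rw [← hη, hYM _ _ (Or.inl rfl)]; simp [M, u, e2, e1.symm]
  · rw [← hη, hYM _ _ (Or.inr hbc)]; simp [M, u', e2]
  · rw [← hη, hYM _ _ (Or.inl rfl)]; simp [M, u']

lemma good_unit (hloc : ∀ a : A, ∃ u : A, u * a = a) (a : A) :
    ∃ e : A, star e = e ∧ (e : A⁺¹) * e ≤ 1 ∧ e * a = a := by
  obtain ⟨u, hu⟩ := hloc a
  set k : A := u + star u - star u * u with hk
  have hks : IsSelfAdjoint k := by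
    simp only [hk, IsSelfAdjoint, star_sub, star_add, star_star, star_mul]; abel
  have hka : k * a = a := by
    rw [hk, sub_mul, add_mul, mul_assoc, hu]; abel
  have hk1 : (k : A⁺¹) ≤ 1 := by
    have : 1 - (k : A⁺¹) = star (1 - (u : A⁺¹)) * (1 - u) := by
      simp only [hk, Unitization.inr_sub, Unitization.inr_add, Unitization.inr_mul,
        Unitization.inr_star, star_sub, star_one]
      noncomm_ring
    rw [← sub_nonneg, this]
    exact star_mul_self_nonneg _
  obtain ⟨P, N, hp, hn, hpn, h2⟩ : ∃ P N : A, 0 ≤ P ∧ 0 ≤ N ∧ P - N = k ∧ N * P = 0 :=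
    ⟨k⁺, k⁻, CFC.posPart_nonneg k, CFC.negPart_nonneg k, CFC.posPart_sub_negPart k hks,
      CFC.negPart_mul_posPart k⟩
  clear_value k
  subst hpn
  have hps : star P = P := (IsSelfAdjoint.of_nonneg hp).star_eq
  have hns : star N = N := (IsSelfAdjoint.of_nonneg hn).star_eq
  have h3 : N * a = 0 := by
    have e1 : N * N * a = -(N * a) := by
      conv_rhs => rw [← hka, ← mul_assoc, mul_sub, h2]
      simp
    have e2 : star (N * a) * (N * a) = -(star a * N * a) := by
      rw [star_mul, hns, mul_assoc (star a) N a, ← mul_neg, ← e1]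
      noncomm_ring
    rw [← CStarRing.star_mul_self_eq_zero_iff]
    refine le_antisymm ?_ (star_mul_self_nonneg _)
    rw [e2]
    exact neg_nonpos.2 (star_left_conjugate_nonneg hn a)
  refine ⟨P, hps, ?_, ?_⟩
  · have hP : (0 : A⁺¹) ≤ (P : A) := Unitization.inr_nonneg_iff.2 hp
    set s : A := CFC.sqrt P with hs
    have hss : star s = s := (IsSelfAdjoint.of_nonneg (CFC.sqrt_nonneg P)).star_eq
    have hsP : s * s = P := CFC.sqrt_mul_sqrt_self P
    have hNs : N * s = 0 := by
      rw [← CStarRing.mul_star_self_eq_zero_iff, star_mul, hss, ← mul_assoc, mul_assoc N, hsP, h2,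
        zero_mul]
    have e1 : (P : A⁺¹) * P ≤ P := by
      have := star_left_conjugate_le_conjugate hk1 (s : A⁺¹)
      rw [mul_one, ← Unitization.inr_star, hss, ← Unitization.inr_mul, ← Unitization.inr_mul,
        ← Unitization.inr_mul, hsP, mul_assoc, sub_mul, hNs, sub_zero] at this
      rw [← Unitization.inr_mul]
      have e : s * (P * s) = P * P := by rw [← hsP]; noncomm_ring
      rwa [e] at this
    have hPs : IsSelfAdjoint (P : A⁺¹) := IsSelfAdjoint.of_nonneg hP
    have e2 : ‖(P : A⁺¹) * P‖ ≤ ‖(P : A⁺¹)‖ :=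
      CStarAlgebra.norm_le_norm_of_nonneg_of_le hPs.mul_self_nonneg e1
    rw [hPs.norm_mul_self] at e2
    refine e1.trans ((CStarAlgebra.norm_le_one_iff_of_nonneg _ hP).1 ?_)
    nlinarith [norm_nonneg (P : A⁺¹)]
  · rw [sub_mul, h3, sub_zero] at hka
    exact hka

lemma douglas_of_path3 (hloc : ∀ a : A, ∃ u : A, u * a = a) {n : ℕ} {G : SimpleGraph (Fin n)}
    (h : Completable A G) (hG : ¬ IsUnionOfComplete G) :
    Douglas (fun x : A⁺¹ => ∃ a : A, (a : A⁺¹) = x) where
  zero := ⟨0, by simp⟩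
  add := by rintro _ _ ⟨a, rfl⟩ ⟨b, rfl⟩; exact ⟨a + b, by simp⟩
  mul_left := by
    rintro z _ ⟨a, rfl⟩
    refine ⟨z.fst • a + z.snd * a, ?_⟩
    conv_rhs => rw [← Unitization.inl_fst_add_inr_snd_eq z]
    simp [add_mul, Unitization.inl_mul_inr]
  star := by rintro _ ⟨a, rfl⟩; exact ⟨star a, by simp⟩
  sqrt := by
    rintro _ ⟨a, rfl⟩ ha
    obtain ⟨p, hp⟩ := exists_sqrt (Unitization.inr_nonneg_iff.1 ha)
    exact ⟨p, ⟨p, rfl⟩, by rw [← hp]; simp⟩
  doug := by
    rintro _ _ ⟨x, rfl⟩ ⟨w, rfl⟩ hle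
    rw [← Unitization.inr_star, ← Unitization.inr_star, ← Unitization.inr_mul,
      ← Unitization.inr_mul, ← sub_nonneg, ← Unitization.inr_sub,
      Unitization.inr_nonneg_iff] at hle
    obtain ⟨r, hr⟩ := exists_sqrt hle
    obtain ⟨e, he1, he2, he3⟩ := good_unit hloc x
    obtain ⟨f, hf1, hf2, hf3⟩ := good_unit hloc w
    obtain ⟨ν, _, a, b, c, haa, hab, hbb, hbc, hcc⟩ := path3_completion h hG
      (ι := Bool) (κ := Unit) (fun k => cond k e 0) (fun k => cond k x r) (fun _ => w) (fun _ => f)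
      (by simp [ip, hr])
    simp only [ip, Fintype.sum_bool, cond_true, cond_false, star_zero, zero_mul, add_zero, he1, hf1,
      he3, hr, add_sub_cancel, Finset.univ_unique, Finset.sum_singleton] at haa hab hbb hbc hcc
    change ip a a = _ at haa
    change ip a b = _ at hab
    change ip b b = _ at hbb
    change ip b c = _ at hbc
    change ip c c = _ at hcc
    have hwf : star w * f = star w := by
      have := congrArg star hf3
      rwa [star_mul, hf1] at this
    have hcb : ip c b = w := by rw [← star_ip, hbc, hwf, star_star]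
    have h1 : ∀ k, b k - c k * w = 0 := by
      apply eq_zero_of_ip_self (x := fun k => b k - c k * w)
      rw [ip_sub_mul, hbb, hbc, hcb, hcc, hwf, mul_assoc, mul_assoc, hf3, hf3]
      abel
    have h2 : b = fun k => c k * w := funext fun k => sub_eq_zero.1 (h1 k)
    refine ⟨(ip a c : A), ?_, ?_⟩
    · set z := ip a c with hz
      have h3 := ip_self_nonneg (fun k => c k - a k * z)
      rw [ip_sub_mul, hcc, ← star_ip a c, ← hz, haa, ← Unitization.inr_nonneg_iff] at h3
      simp only [Unitization.inr_add, Unitization.inr_sub, Unitization.inr_mul,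
        Unitization.inr_star] at h3
      have h4 := star_left_conjugate_le_conjugate he2 (z : A⁺¹)
      rw [mul_one] at h4
      have h5 : star (z : A⁺¹) * z ≤ (f : A⁺¹) * f := by
        rw [← sub_nonneg]
        have h6 := add_nonneg h3 (sub_nonneg.2 h4)
        refine h6.trans (le_of_eq ?_)
        abel
      exact h5.trans hf2
    · rw [← Unitization.inr_mul, ← ip_mul_right, ← h2, hab]

lemma completable_of_chordal (hD : Douglas (fun x : A⁺¹ => ∃ a : A, (a : A⁺¹) = x))
    {n : ℕ} {G : SimpleGraph (Fin n)} (hG : IsChordal G) : Completable A G := by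
  classical
  intro M hM
  have inr_ip : ∀ {ν : Type} [Fintype ν] (x y : ν → A),
      ip (fun k => (x k : A⁺¹)) (fun k => (y k : A⁺¹)) = (ip x y : A) := by
    intro ν _ x y
    have := map_sum (Unitization.inrNonUnitalStarAlgHom ℂ A) (fun k => star (x k) * y k) Finset.univ
    simp only [Unitization.inrNonUnitalStarAlgHom_apply, Unitization.inr_mul,
      Unitization.inr_star] at this
    exact this.symm
  have key : ∀ W : Finset (Fin n), ∃ (ν : Type) (_ : Fintype ν) (ξ : Fin n → ν → A⁺¹),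
      (∀ i k, ∃ a : A, (a : A⁺¹) = ξ i k) ∧
      ∀ i ∈ W, ∀ j ∈ W, (i = j ∨ G.Adj i j) → ip (ξ i) (ξ j) = (M i j : A) := by
    intro W
    induction W using Finset.strongInduction with
    | H W ih =>
      by_cases hW : G.IsClique W
      · obtain ⟨ξ, hξ⟩ := nonneg_gram _ (hM W hW)
        refine ⟨W, inferInstance, fun i k => if h : i ∈ W then (ξ ⟨i, h⟩ k : A) else 0, ?_, ?_⟩
        · intro i k
          by_cases h : i ∈ W
          · exact ⟨_, by simp only [h, dif_pos]; rfl⟩
          · exact ⟨0, by simp [h]⟩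
        · intro i hi j hj _
          simp only [hi, hj, dif_pos]
          rw [inr_ip, ← hξ]
          rfl
      · obtain ⟨W1, W2, h1, h2, hcl, hcov⟩ := decompose hG W hW
        obtain ⟨ν1, _, ξ1, hI1, hξ1⟩ := ih W1 h1
        obtain ⟨ν2, _, ξ2, hI2, hξ2⟩ := ih W2 h2
        obtain ⟨ν, _, J, J', hJ, hJ', hJJ⟩ := hD.amalgam (W1 ∩ W2) ν1 ν2 ξ1 ξ2 hI1 hI2 (by
          intro i hi j hj
          have hij : i = j ∨ G.Adj i j := by
            by_cases e : i = j
            · exact Or.inl e
            · exact Or.inr (hcl (Finset.mem_coe.2 hi) (Finset.mem_coe.2 hj) e)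
          rw [Finset.mem_inter] at hi hj
          rw [hξ1 i hi.1 j hj.1 hij, hξ2 i hi.2 j hj.2 hij])
        have hz : ∀ i ∈ W2, (if i ∈ W1 then J (ξ1 i) else J' (ξ2 i)) = J' (ξ2 i) := by
          intro i hi
          split_ifs with h
          · exact hJJ i (Finset.mem_inter.2 ⟨h, hi⟩)
          · rfl
        refine ⟨ν, inferInstance, fun i => if i ∈ W1 then J (ξ1 i) else J' (ξ2 i), ?_, ?_⟩
        · intro i k
          by_cases h : i ∈ W1
          · simp only [h, if_true]; exact hJ.2 _ (hI1 i) k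
          · simp only [h, if_false]; exact hJ'.2 _ (hI2 i) k
        · intro i hi j hj hij
          rcases hcov i hi j hj hij with ⟨a, b⟩ | ⟨a, b⟩
          · simp only [a, b, if_true]
            rw [hJ.1, hξ1 i a j b hij]
          · simp only [hz i a, hz j b]
            rw [hJ'.1, hξ2 i a j b hij]
  obtain ⟨ν, _, ξ, hI, hξ⟩ := key Finset.univ
  choose η hη using hI
  refine ⟨Matrix.of fun i j => ip (η i) (η j), gram_nonneg η _ fun _ _ => rfl, fun i j hij => ?_⟩
  apply Unitization.inr_injective (R := ℂ)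
  rw [← hξ i (Finset.mem_univ i) j (Finset.mem_univ j) hij, Matrix.of_apply, ← inr_ip]
  simp only [hη]

theorem dichotomy [Nontrivial A] (hloc : ∀ a : A, ∃ u : A, u * a = a) :
    (∀ (n : ℕ) (G : SimpleGraph (Fin n)), Completable A G ↔ IsChordal G) ∨
    (∀ (n : ℕ) (G : SimpleGraph (Fin n)), Completable A G → IsUnionOfComplete G) := by
  by_cases h : ∀ (n : ℕ) (G : SimpleGraph (Fin n)), Completable A G → IsUnionOfComplete G
  · exact Or.inr h
  push Not at h
  obtain ⟨n, G, h1, h2⟩ := h
  exact Or.inl fun _ _ =>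
    ⟨chordal_of_completable, completable_of_chordal (douglas_of_path3 hloc h1 h2)⟩

end Pool.Agent.Lib.MP_4d599e_an
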